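import Pool.Agent.MKG.Final

/-! # The divergence multiplicative Khintchine-Groshev theorem for nondegenerate maps -/

open MeasureTheory Set
open scoped BigOperators

namespace Pool.Agent.Results.MP_99fd1a_nt.KhintchineGroshev

/-- `f` is `ℓ`-nondegenerate at `x₀`: it is `C^ℓ` on some ball around `x₀`, and the partial
derivatives of `f` at `x₀` of all orders from `1` to `ℓ` span `ℝⁿ`. -/
def NondegenerateAt {d n : ℕ} (f : (Fin d → ℝ) → (Fin n → ℝ)) (ℓ : ℕ) (x₀ : Fin d → ℝ) : Prop :=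
  (∃ r > 0, ContDiffOn ℝ ℓ f (Metric.ball x₀ r)) ∧
  Submodule.span ℝ {w : Fin n → ℝ | ∃ k : ℕ, 1 ≤ k ∧ k ≤ ℓ ∧ ∃ c : Fin k → Fin d,
    w = iteratedFDeriv ℝ k f x₀ (fun i => Pi.single (c i) 1)} = ⊤

/-- `Π₊(q)`: the product of `|q_i|` over the `i` with `q_i ≠ 0` (empty product `1`). -/
noncomputable def PiPlus {n : ℕ} (q : Fin n → ℤ) : ℝ :=
  ∏ i, if q i = 0 then 1 else |(q i : ℝ)|

/-- **Divergence multiplicative Khintchine-Groshev theorem for nondegenerate maps.** -/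
theorem result (d n : ℕ) (hd : 1 ≤ d) (hn : 1 ≤ n) (U : Set (Fin d → ℝ)) (hU : IsOpen U)
    (f : (Fin d → ℝ) → (Fin n → ℝ))
    (hf : ∀ᵐ x ∂(volume.restrict U), ∃ ℓ : ℕ, NondegenerateAt f ℓ x)
    (ψ : ℝ → ℝ) (hpos : ∀ h, 0 < h → 0 < ψ h)
    (hmono : MonotoneOn ψ (Ioi 0) ∨ AntitoneOn ψ (Ioi 0))
    (hdiv : ¬ Summable (fun h : ℕ => (Real.log (h + 1)) ^ (n - 1) * ψ (h + 1))) :
    ∀ᵐ x ∂(volume.restrict U),
      {pq : ℤ × (Fin n → ℤ) |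
        |(pq.1 : ℝ) + ∑ i, (pq.2 i : ℝ) * f x i| < ψ (PiPlus pq.2)}.Infinite :=
  MKG.final_of_core (fun _ _ _ _ D ψ h1 h2 h3 i₀ => MKG.core D ψ h1 h2 h3 i₀)
    d n hd hn U hU f hf ψ hpos hmono hdiv

end Pool.Agent.Results.MP_99fd1a_nt.KhintchineGroshev
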